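import Pool.Agent.Helper41.GY.MLA
import Pool.Agent.Helper98.TA.Stmts2

/-! MLB: ergodic joinings of the powers, general base (MP_7a8f48_an, sheet TA). The proof is the
proof of GY.MLA of helper41. -/

set_option linter.unusedSectionVars false

open MeasureTheory Filter Topology Finset
open scoped ComplexConjugate

namespace Pool.Agent.Helper89.TA

open Pool.Agent.Helper98.TW (SA AM UF BF Sys IA Inc Lm Sys.iterate)
open Pool.Agent.Helper98.GY (JY JJY aHY UR)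
open Pool.Agent.Helper98.TA (Md ST_MHA ST_MLB Tr)
open Pool.Agent.Helper40.TWM (HQ St NK NC ST_MTV ST_MSK ST_MNK)
open Pool.Agent.Helper16.AZ (T E Op mm)
open Pool.Agent.Helper16.BZ (co Wk EE)
open Pool.Agent.Helper40.DZ (SK)
open Pool.Agent.Helper40.JZ (LM ST_LMF)
open Pool.Agent.Helper73.TWR
open Pool.Agent.Helper41.TWM (int_norm_le_sqrt dsum mean_cs mean_split ae_aesm)
open Pool.Agent.Helper41.GY (aHY_le aesm_of_ae)

/-- MLB -/
theorem st_MLB (hMHA : ST_MHA) (hMTV : ST_MTV) (hMSK : ST_MSK) (hMNK : ST_MNK)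
    (hLMF : ST_LMF) : ST_MLB := by
  intro Y _ _ _ _ ν _ S₀ hS₀ hMdl d φ c hφ hc ε hε
  obtain ⟨S, hSe⟩ : ∃ S : Y → Y, S = S₀ := ⟨_, rfl⟩
  obtain ⟨S', hSe'⟩ : ∃ S' : Y → Y, S' = S₀.symm := ⟨_, rfl⟩
  have hS : Sys ν S S' := by
    rw [hSe, hSe']
    refine ⟨hS₀, ?_, Eventually.of_forall fun x => S₀.symm_apply_apply x,
      Eventually.of_forall fun x => S₀.apply_symm_apply x⟩
    exact MeasurePreserving.symm S₀.toMeasurableEquiv hS₀
  rw [← hSe] at hMdl ⊢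
  obtain ⟨hErg, u, A, N, hTr⟩ := hMdl
  have hSt : St ν S S' := ⟨fun m => hS.iterate m, hErg⟩
  have hφm : AEStronglyMeasurable φ ν := aesm_of_ae hφ.1
  have hcm : AEStronglyMeasurable c ν := hc.aestronglyMeasurable
  obtain ⟨B0, hB0⟩ := isCompact_univ.exists_bound_of_continuousOn hc.continuousOn
  have hB : ∀ x, ‖c x‖ ≤ B0 := fun x => hB0 x (Set.mem_univ x)
  obtain ⟨V, hV⟩ : ∃ V : ℝ, V = B0 ^ 2 := ⟨_, rfl⟩
  have hV0 : 0 ≤ V := by rw [hV]; exact sq_nonneg _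
  -- the constants
  obtain ⟨δ, hδ0, hδ⟩ : ∃ δ : ℝ, 0 < δ ∧ V * √δ ≤ ε / 4 := by
    refine ⟨(ε / (4 * (V + 1))) ^ 2, by positivity, ?_⟩
    rw [Real.sqrt_sq (by positivity)]
    rw [mul_div_assoc', div_le_div_iff₀ (by positivity) (by norm_num)]
    nlinarith
  obtain ⟨ε₁, hε₁, hε₁'⟩ : ∃ ε₁ : ℝ, 0 < ε₁ ∧ ∀ e, 0 ≤ e → e ≤ ε₁ → V * √(e * V ^ 2) ≤ ε / 4 := by
    refine ⟨(ε / (4 * (V ^ 2 + 1))) ^ 2, by positivity, fun e he he' => ?_⟩
    rw [Real.sqrt_mul he, Real.sqrt_sq hV0]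
    have h1 : √e ≤ ε / (4 * (V ^ 2 + 1)) := by
      rw [Real.sqrt_le_left (by positivity)]
      exact he'
    have h2 : V * (√e * V) ≤ V * ((ε / (4 * (V ^ 2 + 1))) * V) := by gcongr
    refine h2.trans ?_
    have h3 : V * ((ε / (4 * (V ^ 2 + 1))) * V) = V ^ 2 * ε / (4 * (V ^ 2 + 1)) := by ring
    rw [h3, div_le_div_iff₀ (by positivity) (by norm_num)]
    nlinarith [sq_nonneg V]
  obtain ⟨p₀, R₀, K, η, hR₀, hη, hmtv⟩ := hMTV Y ν S S' d φ c hSt hφm hφ.2 hcm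
    ⟨B0, hB⟩ δ hδ0
  have hε2 : 0 < min η ε₁ := lt_min hη hε₁
  have hE1 : ∀ k k', AEStronglyMeasurable (EE S φ c k k') ν := ae_aesm hS hφm hcm
  have hEb : ∀ k k' x, ‖EE S φ c k k' x‖ ≤ B0 ^ 2 := fun k k' x =>
    Pool.Agent.Helper16.BZ.EE_norm S φ c hφ.2 B0 hB k k' x
  obtain ⟨q₀, hq₀⟩ := hMHA Y ν S S' u A N hSt hTr R₀ (K * K)
    (fun i => EE S φ c (finProdFinEquiv.symm i).1 (finProdFinEquiv.symm i).2) (min η ε₁) hε2
    (fun i => MemLp.of_bound (hE1 _ _) (B0 ^ 2) (Eventually.of_forall (hEb _ _)))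
  refine ⟨max (max p₀ q₀) (R₀ ^ 2 + 1), fun p hp hpp q hq hqp hpq κ hJ => ?_⟩
  have hp1 : p₀ ≤ p := ((le_max_left _ _).trans (le_max_left _ _)).trans hp
  have hq1 : q₀ ≤ q := ((le_max_right _ _).trans (le_max_left _ _)).trans hq
  have hq2 : R₀ ^ 2 < q := by
    have : R₀ ^ 2 + 1 ≤ q := (le_max_right _ _).trans hq
    omega
  obtain ⟨C, hHQ, hJJ, hG⟩ := hq₀ q hq1 hqp p hpp hpq κ hJ
  have hnk := hMNK Y ν S S' C d φ c hS hHQ.ia hφm hφ.2 hcm ⟨B0, hB⟩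
  have hnc := hMSK Y ν S S' C d φ c hS hHQ.ia hφm hφ.2 hcm ⟨B0, hB⟩
  have hLM : LM (NC ν C S φ c) p ≤ LM (NK ν S φ c) p + δ := by
    refine hmtv C p q hp1 hpp hqp hpq hq2 hHQ fun k hk k' hk' => ?_
    rw [(hnk.2 k k').2.2]
    have := hG (finProdFinEquiv (⟨k, hk⟩, ⟨k', hk'⟩))
    simp only [Equiv.symm_apply_apply] at this
    exact this.trans (min_le_left _ _)
  -- the limits
  have l1 := (hLMF _ hnk.1).1 p hpp.one_le
  have l2 := (hLMF _ hnk.1).1 q hqp.one_le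
  have l3 := (hLMF _ hnc).1 p hpp.one_le
  have l4 := (((l1.sqrt).mul (l2.sqrt)).add (tendsto_const_nhds (x :=
    V * √(min η ε₁ * V ^ 2)))).add ((l3.sub l1).sqrt.const_mul V)
  have b1 := hε₁' (min η ε₁) hε2.le (min_le_right _ _)
  have b2 : V * √(LM (NC ν C S φ c) p - LM (NK ν S φ c) p) ≤ ε / 4 := by
    refine le_trans (mul_le_mul_of_nonneg_left (Real.sqrt_le_sqrt ?_) hV0) hδ
    linarith
  have l5 := l4.eventually_le_const (u := √(LM (NK ν S φ c) p) *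
      √(LM (NK ν S φ c) q) + ε) (by linarith)
  filter_upwards [l5, eventually_ge_atTop 1] with H h5 hH
  refine le_trans ?_ h5
  have := aHY_le hJ hS hHQ.ia.1 hε2.le hJJ hφm hφ.2 hcm hB (fun k k' => ⟨(hnk.2 k k').1,
    (hnk.2 k k').2.2⟩) hH
  rw [← hV] at this
  exact this

end Pool.Agent.Helper89.TA
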