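import Pool.Agent.Helper98.TA.Basic
import Pool.Agent.Helper73.TWR.Tool

/-! RG1: the conditional expectation on the second coordinate (MP_7a8f48_an, sheet TA). -/

set_option linter.unusedSectionVars false

open MeasureTheory Filter Topology Finset
open scoped ComplexConjugate

namespace Pool.Agent.Helper89.TA

open Pool.Agent.Helper98.TW
open Pool.Agent.Helper98.TA
open Pool.Agent.Helper40.TWM (St HQ)
open Pool.Agent.Helper98.GY (JY JJY)
open Pool.Agent.Helper73.TWR (ind norm_ind_le int_ce_left int_bdd bf_int ce_unique ce_am ce_int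
  ce_bdd bf_ind)

theorem st_RG1 (hRSW : ST_RSW) : ST_RG1 := by
  intro Ω m0 μ hμ S S' E p q κ hSt hE hRi hp hq hJ
  have hP : IsProbabilityMeasure κ := hJ.prob
  have hSm : Measurable S := (St.s1 hSt).mp.measurable
  have hL1 : Lm (J1 E) := lm_J1 hE.1
  have hL2 : Lm (J2 E) := lm_J2 hE.1
  have hLJ : Lm (jo (J1 E) (J2 E)) := lm_jo hL1 hL2
  have hLB : Lm (B2 Ω) := lm_B2
  obtain ⟨_, hsw, _⟩ := hRSW Ω μ S p q κ E hSm hE.1 hJ
  have hsw' := hsw hRi hp hq
  have main : ∀ w : Ω × Ω → ℂ, BF w → AM κ (jo (J1 E) (J2 E)) w →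
      κ[w|B2 Ω] =ᵐ[κ] κ[w|J2 E] := by
    intro w hw hwm
    have hwi : Integrable w κ := bf_int hw
    obtain ⟨hwM, B, hB⟩ := hw
    symm
    refine ce_unique hLB hwi ce_int (am_mono (J2_le_B2 hE.1) ce_am) fun s hs => ?_
    obtain ⟨t, ht, rfl⟩ := hs
    have ht' : MeasurableSet t := ht
    have hH : BF (ind t) := bf_ind (𝒜 := m0) (le_refl (α := MeasurableSpace Ω) _) ht'
    have hHs : Integrable (fun z : Ω × Ω => ind t z.2) κ :=
      bf_int ⟨hH.1.comp measurable_snd, 1, fun z => norm_ind_le t z.2⟩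
    have e0 : ∀ z : Ω × Ω, ind (Prod.snd ⁻¹' t) z = ind t z.2 := fun z => rfl
    have hHb : ∀ᵐ z ∂κ, ‖ind t z.2‖ ≤ 1 := Eventually.of_forall fun z => norm_ind_le t z.2
    have hwb : ∀ᵐ z ∂κ, ‖w z‖ ≤ B := Eventually.of_forall hB
    have hgb : ∀ᵐ z ∂κ, ‖(κ[w|J2 E]) z‖ ≤ B := ce_bdd hL2 hwi hwb
    have hkb : ∀ᵐ z ∂κ, ‖(κ[fun z : Ω × Ω => ind t z.2|J2 E]) z‖ ≤ 1 := ce_bdd hL2 hHs hHb
    have hgA : AM κ (J2 E) (κ[w|J2 E]) := ce_am
    have hkA : AM κ (J2 E) (κ[fun z : Ω × Ω => ind t z.2|J2 E]) := ce_am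
    have i1 : Integrable (fun z => (κ[w|J2 E]) z * ind t z.2) κ :=
      int_bdd (hgA.mono hL2) hgb hHs
    have i2 : Integrable (fun z => (κ[fun z : Ω × Ω => ind t z.2|J2 E]) z * w z) κ :=
      int_bdd (hkA.mono hL2) hkb hwi
    have i3 : Integrable (fun z => w z * ind t z.2) κ :=
      int_bdd hwM.aestronglyMeasurable hwb hHs
    have h1 := int_ce_left hL2 hgA i1 hHs
    have h2 := int_ce_left hL2 hkA i2 hwi
    have h3 := int_ce_left hLJ hwm i3 hHs
    have h4 := hsw' (ind t) hH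
    calc ∫ z, ind (Prod.snd ⁻¹' t) z * (κ[w|J2 E]) z ∂κ
        = ∫ z, (κ[w|J2 E]) z * ind t z.2 ∂κ := by
          refine integral_congr_ae (Eventually.of_forall fun z => ?_)
          simp only [e0]
          ring
      _ = ∫ z, (κ[w|J2 E]) z * (κ[fun z : Ω × Ω => ind t z.2|J2 E]) z ∂κ := h1.symm
      _ = ∫ z, (κ[fun z : Ω × Ω => ind t z.2|J2 E]) z * (κ[w|J2 E]) z ∂κ := by
          refine integral_congr_ae (Eventually.of_forall fun z => ?_)
          exact mul_comm _ _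
      _ = ∫ z, (κ[fun z : Ω × Ω => ind t z.2|J2 E]) z * w z ∂κ := h2
      _ = ∫ z, w z * (κ[fun z : Ω × Ω => ind t z.2|jo (J1 E) (J2 E)]) z ∂κ := by
          refine integral_congr_ae ?_
          filter_upwards [h4] with z hz
          rw [hz]
          exact mul_comm _ _
      _ = ∫ z, w z * ind t z.2 ∂κ := h3
      _ = ∫ z, ind (Prod.snd ⁻¹' t) z * w z ∂κ := by
          refine integral_congr_ae (Eventually.of_forall fun z => ?_)
          simp only [e0]
          ring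
  refine ⟨fun F hF hFE => ?_, main⟩
  refine main _ ⟨hF.1.comp measurable_fst, ?_⟩ ?_
  · obtain ⟨_, B, hB⟩ := hF
    exact ⟨B, fun z => hB z.1⟩
  · refine am_jo_left ?_
    exact Pool.Agent.Helper96.TWR.AM_comp (jy_mp1 hJ) hFE

end Pool.Agent.Helper89.TA
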